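import Pool.Agent.helper17.RX.Spec

/-!
# Project RX, row SPX
-/

set_option autoImplicit false

namespace TP.TW

open DP MeasureTheory Finset

private instance SPX_prob : IsProbabilityMeasure P1 := by
  unfold P1
  infer_instance

/-- The part of `Ω` near one of the four rectangles. -/
private theorem SPX_sum (Ω : Finset V) (w : V → ℝ) (hw : ∀ v, 0 ≤ w v) (x : V) (t : ℕ) (a b d e : ℤ)
    (ha : x.1 - 3 * t ≤ a) (hb : b ≤ x.1 + 3 * t) (hd : x.2 - 3 * t ≤ d) (he : e ≤ x.2 + 3 * t) :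
    ∑ v ∈ nr Ω a b d e t, w v ≤ ∑ v ∈ Ω with sd x v ≤ 4 * t, w v := by
  apply Finset.sum_le_sum_of_subset_of_nonneg
  · intro v hv
    unfold nr at hv
    obtain ⟨h1, h2, h3, h4, h5⟩ := (@mem_filter _ _ (_) _ _).1 hv
    refine (@mem_filter _ _ (_) _ _).2 ⟨h1, ?_⟩
    show max (x.1 - v.1).natAbs (x.2 - v.2).natAbs ≤ 4 * t
    omega
  · intro v _ _
    exact hw v

theorem SPX (anr : ANR_stmt) (vsx : VSX_stmt) : SPX_stmt := by
  obtain ⟨C, hC, hv⟩ := vsx
  refine ⟨4 * C, by linarith, fun R S Ω w K k x t ht hRS => ?_⟩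
  have hC0 : 0 < C := by linarith
  have hRS' := hRS
  obtain ⟨-, -, -, hw, -, hK, -⟩ := hRS
  have hlog : 0 ≤ Real.log ((t : ℝ) + 2) := Real.log_nonneg (by have : (0 : ℝ) ≤ t := by positivity
                                                                linarith)
  have hL : 0 ≤ C * (((R : ℝ) + 1) * Real.log ((t : ℝ) + 2)) :=
    mul_nonneg hC0.le (mul_nonneg (by positivity) hlog)
  have hsum0 : 0 ≤ ∑ v ∈ Ω with sd x v ≤ 4 * t, w v := Finset.sum_nonneg fun v _ => hw v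
  obtain ⟨X, hX⟩ : ∃ X : ℝ, X = C * K * (C * (((R : ℝ) + 1) * Real.log ((t : ℝ) + 2))) ^ R * (∑ v ∈ Ω with sd x v ≤ 4 * t, w v) / (t : ℝ) ^ 2 := ⟨_, rfl⟩
  have hmono : ∀ (a b d e : ℤ) (P : ℝ), x.1 - 3 * t ≤ a → b ≤ x.1 + 3 * t → x.2 - 3 * t ≤ d → e ≤ x.2 + 3 * t →
      P ≤ C * K * (C * (((R : ℝ) + 1) * Real.log ((t : ℝ) + 2))) ^ R * (∑ v ∈ nr Ω a b d e t, w v) / (t : ℝ) ^ 2 → P ≤ X := by
    intro a b d e P g1 g2 g3 g4 hP
    rw [hX]
    refine hP.trans (div_le_div_of_nonneg_right (mul_le_mul_of_nonneg_left (SPX_sum Ω w hw x t a b d e g1 g2 g3 g4) ?_) (by positivity))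
    exact mul_nonneg (mul_nonneg hC0.le hK) (pow_nonneg hL R)
  have e1 := (hv R S Ω w K k t (x.1 - 3 * t) (x.2 + t) ht hRS').1
  have e2 := (hv R S Ω w K k t (x.1 - 3 * t) (x.2 - 3 * t) ht hRS').1
  have e3 := (hv R S Ω w K k t (x.1 + t) (x.2 - 3 * t) ht hRS').2
  have e4 := (hv R S Ω w K k t (x.1 - 3 * t) (x.2 - 3 * t) ht hRS').2
  rw [show x.1 - 3 * (t : ℤ) + 6 * t = x.1 + 3 * t by ring, show x.2 + (t : ℤ) + 2 * t = x.2 + 3 * t by ring] at e1
  rw [show x.1 - 3 * (t : ℤ) + 6 * t = x.1 + 3 * t by ring, show x.2 - 3 * (t : ℤ) + 2 * t = x.2 - t by ring] at e2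
  rw [show x.1 + (t : ℤ) + 2 * t = x.1 + 3 * t by ring, show x.2 - 3 * (t : ℤ) + 6 * t = x.2 + 3 * t by ring] at e3
  rw [show x.1 - 3 * (t : ℤ) + 2 * t = x.1 - t by ring, show x.2 - 3 * (t : ℤ) + 6 * t = x.2 + 3 * t by ring] at e4
  have f1 := hmono _ _ _ _ _ (by omega) (by omega) (by omega) (by omega) e1
  have f2 := hmono _ _ _ _ _ (by omega) (by omega) (by omega) (by omega) e2
  have f3 := hmono _ _ _ _ _ (by omega) (by omega) (by omega) (by omega) e3
  have f4 := hmono _ _ _ _ _ (by omega) (by omega) (by omega) (by omega) e4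
  have hsub : {β : V → Bool | SR (col β) k (S β) x t} ⊆
      ({β : V → Bool | crs true (col β) k (til (S β)) (x.1 - 3 * t) (x.1 + 3 * t) (x.2 + t) (x.2 + 3 * t)} ∪
      {β : V → Bool | crs true (col β) k (til (S β)) (x.1 - 3 * t) (x.1 + 3 * t) (x.2 - 3 * t) (x.2 - t)}) ∪
      ({β : V → Bool | crs false (col β) k (til (S β)) (x.1 + t) (x.1 + 3 * t) (x.2 - 3 * t) (x.2 + 3 * t)} ∪
      {β : V → Bool | crs false (col β) k (til (S β)) (x.1 - 3 * t) (x.1 - t) (x.2 - 3 * t) (x.2 + 3 * t)}) := by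
    intro β hβ
    rcases anr (col β) k (S β) x t ht hβ with h | h | h | h
    · exact Or.inl (Or.inl h)
    · exact Or.inl (Or.inr h)
    · exact Or.inr (Or.inl h)
    · exact Or.inr (Or.inr h)
  have hb : Pr {β : V → Bool | SR (col β) k (S β) x t} ≤ (X + X) + (X + X) := by
    unfold Pr at f1 f2 f3 f4 ⊢
    refine (measureReal_mono hsub (measure_ne_top _ _)).trans ?_
    refine (measureReal_union_le _ _).trans ?_
    exact add_le_add ((measureReal_union_le _ _).trans (add_le_add f1 f2)) ((measureReal_union_le _ _).trans (add_le_add f3 f4))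
  refine hb.trans ?_
  have h4 : (X + X) + (X + X) = 4 * C * K * (C * (((R : ℝ) + 1) * Real.log ((t : ℝ) + 2))) ^ R *
      (∑ v ∈ Ω with sd x v ≤ 4 * t, w v) / (t : ℝ) ^ 2 := by
    rw [hX]
    ring
  rw [h4]
  have hpow : (C * (((R : ℝ) + 1) * Real.log ((t : ℝ) + 2))) ^ R ≤
      (4 * C * (((R : ℝ) + 1) * Real.log ((t : ℝ) + 2))) ^ R := by
    apply pow_le_pow_left₀ hL
    rw [mul_assoc 4 C]
    linarith
  refine div_le_div_of_nonneg_right (mul_le_mul_of_nonneg_right (mul_le_mul_of_nonneg_left hpow ?_) hsum0) (by positivity)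
  exact mul_nonneg (by positivity) hK

end TP.TW
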